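import Pool.Agent.Helper45.SD.Goals

/-!
Packet RAM of MP_9415b6_co: Ramanujan sums and Fourier inversion.
-/

open Finset

namespace Pool.Agent.Helper82.SD

open Pool.Agent.Helper45.SD

/-- the sum over the elements killed by `m` -/
theorem killed_sum (n : ℕ) [NeZero n] (x : ZMod n) (m : ℕ) (hm : m ∣ n) :
    ∑ a ∈ (Finset.univ : Finset (ZMod n)).filter (fun a => m • a = 0), psi n (-(a * x)) =
      if m ∣ Nat.gcd x.val n then (m : ℂ) else 0 := by
  obtain ⟨t, ht⟩ := hm
  have hn0 : n ≠ 0 := NeZero.ne n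
  have hm0 : 0 < m := by
    rcases Nat.eq_zero_or_pos m with h | h
    · subst h; simp at ht; exact absurd ht hn0
    · exact h
  have ht0 : 0 < t := by
    rcases Nat.eq_zero_or_pos t with h | h
    · subst h; simp at ht; exact absurd ht hn0
    · exact h
  have hbij : ∑ a ∈ (Finset.univ : Finset (ZMod n)).filter (fun a => m • a = 0), psi n (-(a * x)) =
      ∑ b ∈ Finset.range m, (psi n (-((t : ZMod n) * x))) ^ b := by
    symm
    refine Finset.sum_nbij' (fun b => ((t * b : ℕ) : ZMod n)) (fun a => a.val / t) ?_ ?_ ?_ ?_ ?_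
    · intro b hb
      simp only [Finset.mem_filter, Finset.mem_univ, true_and, nsmul_eq_mul]
      rw [← Nat.cast_mul, ← mul_assoc, ← ht, Nat.cast_mul]
      simp
    · intro a ha
      simp only [Finset.mem_filter, Finset.mem_univ, true_and, nsmul_eq_mul] at ha
      rw [Finset.mem_range, Nat.div_lt_iff_lt_mul ht0]
      calc a.val < n := a.val_lt
        _ = m * t := ht
    · intro b hb
      rw [Finset.mem_range] at hb
      show ((t * b : ℕ) : ZMod n).val / t = b
      rw [ZMod.val_natCast, Nat.mod_eq_of_lt]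
      · rw [mul_comm, Nat.mul_div_cancel _ ht0]
      · rw [ht, mul_comm]; exact Nat.mul_lt_mul_of_pos_right hb ht0
    · intro a ha
      simp only [Finset.mem_filter, Finset.mem_univ, true_and, nsmul_eq_mul] at ha
      have h1 : ((m * a.val : ℕ) : ZMod n) = 0 := by
        rw [Nat.cast_mul, ZMod.natCast_zmod_val]; exact ha
      rw [ZMod.natCast_eq_zero_iff] at h1
      have h2 : t ∣ a.val := by
        generalize a.val = v at h1
        rw [ht] at h1
        exact Nat.dvd_of_mul_dvd_mul_left hm0 h1
      show ((t * (a.val / t) : ℕ) : ZMod n) = a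
      rw [Nat.mul_div_cancel' h2, ZMod.natCast_zmod_val]
    · intro b hb
      show _ = psi n (-(((t * b : ℕ) : ZMod n) * x))
      unfold psi
      rw [← AddChar.map_nsmul_eq_pow]
      congr 1
      push_cast
      rw [nsmul_eq_mul]
      ring
  rw [hbij]
  have hone : psi n (-((t : ZMod n) * x)) = 1 ↔ m ∣ Nat.gcd x.val n := by
    unfold psi
    rw [← AddChar.map_zero_eq_one (ZMod.stdAddChar (N := n)),
      ZMod.injective_stdAddChar.eq_iff, neg_eq_zero]
    have : (t : ZMod n) * x = ((t * x.val : ℕ) : ZMod n) := by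
      rw [Nat.cast_mul, ZMod.natCast_zmod_val]
    rw [this, ZMod.natCast_eq_zero_iff]
    generalize x.val = v
    constructor
    · intro h
      refine Nat.dvd_gcd ?_ ⟨t, ht⟩
      rw [ht, mul_comm] at h
      exact Nat.dvd_of_mul_dvd_mul_left ht0 h
    · intro h
      have h' := h.trans (Nat.gcd_dvd_left _ _)
      rw [ht, mul_comm]
      exact Nat.mul_dvd_mul_left t h'
  by_cases hd : m ∣ Nat.gcd x.val n
  · rw [if_pos hd, hone.2 hd]
    simp
  · rw [if_neg hd]
    have hne : psi n (-((t : ZMod n) * x)) ≠ 1 := fun h => hd (hone.1 h)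
    rw [geom_sum_eq hne]
    have : psi n (-((t : ZMod n) * x)) ^ m = 1 := by
      unfold psi
      rw [← AddChar.map_nsmul_eq_pow]
      have : m • (-((t : ZMod n) * x)) = 0 := by
        rw [smul_neg, nsmul_eq_mul, ← mul_assoc, ← Nat.cast_mul, ← ht]
        simp
      rw [this, AddChar.map_zero_eq_one]
    rw [this]; simp

theorem ram : G_RAM := by
  intro n _ x s hs
  have hn0 : n ≠ 0 := NeZero.ne n
  set S : ℕ → ℂ := fun s => ∑ a ∈ (Finset.univ : Finset (ZMod n)).filter
    (fun a => addOrderOf a = s), psi n (-(a * x)) with hS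
  set T : ℕ → ℂ := fun m => ∑ a ∈ (Finset.univ : Finset (ZMod n)).filter
    (fun a => m • a = 0), psi n (-(a * x)) with hT
  have h1 : ∀ m > 0, ∑ i ∈ m.divisors, S i = T m := by
    intro m hm
    rw [hS, hT]
    simp only
    rw [← Finset.sum_biUnion]
    · apply Finset.sum_congr _ (fun _ _ => rfl)
      ext a
      simp only [Finset.mem_biUnion, Nat.mem_divisors, Finset.mem_filter, Finset.mem_univ,
        true_and]
      constructor
      · rintro ⟨i, ⟨hi, _⟩, rfl⟩
        exact addOrderOf_dvd_iff_nsmul_eq_zero.1 hi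
      · intro h
        exact ⟨_, ⟨addOrderOf_dvd_iff_nsmul_eq_zero.2 h, hm.ne'⟩, rfl⟩
    · intro i _ j _ hij
      rw [Function.onFun, Finset.disjoint_left]
      intro a ha hb
      simp only [Finset.mem_filter, Finset.mem_univ, true_and] at ha hb
      exact hij (ha.symm.trans hb)
  rw [ArithmeticFunction.sum_eq_iff_sum_mul_moebius_eq] at h1
  have hs0 : 0 < s := Nat.pos_of_dvd_of_pos hs (Nat.pos_of_ne_zero hn0)
  have h2 := h1 s hs0
  show S s = _
  rw [← h2]
  unfold rg
  rw [Int.cast_sum, Nat.sum_divisorsAntidiagonal'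
    (f := fun a b => ((ArithmeticFunction.moebius a : ℤ) : ℂ) * T b)]
  apply Finset.sum_congr rfl
  intro d hd
  have hd' := Nat.dvd_of_mem_divisors hd
  have : T d = if d ∣ Nat.gcd x.val n then (d : ℂ) else 0 := killed_sum n x d (hd'.trans hs)
  rw [this]
  split_ifs <;> simp

theorem inv : G_INV := by
  intro n _ k x c h
  have hn0 : n ≠ 0 := NeZero.ne n
  set F : ZMod n → ℂ := fun y => if y = 0 then -c else (deg n k x y : ℂ) with hF
  have hz : ∀ l : ZMod n, l ≠ 0 → ∑ y, F y * psi n (l * y) = 0 := by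
    intro l hl
    rw [← Finset.add_sum_erase _ _ (Finset.mem_univ (0 : ZMod n))]
    have h0 : F 0 * psi n (l * 0) = -c := by
      simp [hF, psi]
    have h1 : ∑ y ∈ Finset.univ.erase (0 : ZMod n), F y * psi n (l * y) = c := by
      rw [← h l hl]
      apply Finset.sum_congr rfl
      intro y hy
      have hy' := Finset.ne_of_mem_erase hy
      simp [hF, hy']
    rw [h0, h1]; ring
  have hinv : ∀ y : ZMod n, (n : ℂ) * F y = ∑ y', F y' := by
    intro y
    have h1 : ∑ l : ZMod n, psi n (-(l * y)) * ∑ y', F y' * psi n (l * y') = ∑ y', F y' := by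
      rw [← Finset.add_sum_erase _ _ (Finset.mem_univ (0 : ZMod n))]
      have h0 : psi n (-((0 : ZMod n) * y)) * ∑ y', F y' * psi n (0 * y') = ∑ y', F y' := by
        simp [psi]
      have h0' : ∑ l ∈ Finset.univ.erase (0 : ZMod n),
          psi n (-(l * y)) * ∑ y', F y' * psi n (l * y') = 0 := by
        apply Finset.sum_eq_zero
        intro l hl
        rw [hz l (Finset.ne_of_mem_erase hl), mul_zero]
      rw [h0, h0', add_zero]
    rw [← h1]
    simp_rw [Finset.mul_sum]
    rw [Finset.sum_comm]
    have h2 : ∀ y' : ZMod n, ∑ l : ZMod n, psi n (-(l * y)) * (F y' * psi n (l * y')) =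
        if y' = y then (n : ℂ) * F y' else 0 := by
      intro y'
      have h3 : ∀ l : ZMod n, psi n (-(l * y)) * (F y' * psi n (l * y')) =
          F y' * psi n (l * (y' - y)) := by
        intro l
        have : psi n (l * (y' - y)) = psi n (-(l * y)) * psi n (l * y') := by
          unfold psi
          rw [← AddChar.map_add_eq_mul]
          congr 1; ring
        rw [this]; ring
      simp_rw [h3]
      rw [← Finset.mul_sum]
      unfold psi
      rw [AddChar.sum_mulShift _ (ZMod.isPrimitive_stdAddChar n)]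
      simp only [sub_eq_zero, ZMod.card]
      split_ifs <;> ring
    simp_rw [h2]
    simp
  by_cases hex : ∃ y0 : ZMod n, y0 ≠ 0
  · obtain ⟨y0, hy0⟩ := hex
    refine ⟨deg n k x y0, ?_⟩
    intro y hy
    have h1 := (hinv y).trans (hinv y0).symm
    have hnC : (n : ℂ) ≠ 0 := by exact_mod_cast hn0
    have h2 := mul_left_cancel₀ hnC h1
    simp only [hF, hy, hy0, if_false] at h2
    exact_mod_cast h2
  · exact ⟨0, fun y hy => absurd ⟨y, hy⟩ hex⟩

end Pool.Agent.Helper82.SD
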