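import Pool.Agent.Helper45.SD.Goals

set_option autoImplicit false

/-!
# The even case of Q2 of MP_9415b6_co
-/

open Finset

namespace Pool.Agent.Helper82.SD

open Pool.Agent.Helper45.SD

/-- The absolute value of `D 2 M X`. -/
theorem absD (dv : G_DV) (M X : ℕ) (hM : 2 ≤ M) (hX : 1 ≤ X) :
    |D 2 M X| = ((M - 2).choose ((X - 1) / 2) : ℤ) := by
  obtain ⟨h1, -⟩ := dv 2 M X le_rfl
  obtain ⟨h1, -⟩ := h1 hM
  obtain ⟨N, rfl⟩ : ∃ N, M = N + 2 := ⟨M - 2, by omega⟩
  have e1 : (((N + 2 : ℕ) : ℤ) - 1) = ((N + 1 : ℕ) : ℤ) := by push_cast; ring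
  rw [e1] at h1
  have hpos : (0 : ℤ) < ((N + 1 : ℕ) : ℤ) := by positivity
  have habs : ((N + 1 : ℕ) : ℤ) * |D 2 (N + 2) X| =
      ((N + 1).choose (X / 2) : ℤ) * |((N + 1 : ℕ) : ℤ) * ((X % 2 : ℕ) : ℤ) - ((X / 2 : ℕ) : ℤ)| := by
    have h2 := congrArg abs h1
    rw [abs_mul, abs_mul, abs_of_pos hpos] at h2
    rw [h2]
    congr 1
    · unfold ep
      rw [abs_mul, abs_pow, abs_neg, abs_one, one_pow, one_mul, Nat.abs_cast]
      rfl
    · congr 1
      push_cast
      ring
  apply mul_left_cancel₀ hpos.ne'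
  rw [habs]
  have hN : N + 2 - 2 = N := by omega
  rw [hN]
  rcases Nat.even_or_odd X with he | ho
  · obtain ⟨c, rfl⟩ := he
    have a1 : (c + c) / 2 = c := by omega
    have a2 : (c + c) % 2 = 0 := by omega
    have a3 : (c + c - 1) / 2 = c - 1 := by omega
    rw [a1, a2, a3]
    obtain ⟨d, rfl⟩ : ∃ d, c = d + 1 := ⟨c - 1, by omega⟩
    have a4 : d + 1 - 1 = d := by omega
    rw [a4]
    have a5 : |((N + 1 : ℕ) : ℤ) * ((0 : ℕ) : ℤ) - ((d + 1 : ℕ) : ℤ)| = ((d + 1 : ℕ) : ℤ) := by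
      rw [Nat.cast_zero, mul_zero, zero_sub, abs_neg, Nat.abs_cast]
    rw [a5]
    have := Nat.add_one_mul_choose_eq N d
    exact_mod_cast this.symm
  · obtain ⟨c, rfl⟩ := ho
    have a1 : (2 * c + 1) / 2 = c := by omega
    have a2 : (2 * c + 1) % 2 = 1 := by omega
    have a3 : (2 * c + 1 - 1) / 2 = c := by omega
    rw [a1, a2, a3]
    by_cases hc : c ≤ N + 1
    · have a5 : |((N + 1 : ℕ) : ℤ) * ((1 : ℕ) : ℤ) - (c : ℤ)| = ((N + 1 - c : ℕ) : ℤ) := by
        rw [Nat.cast_one, mul_one, Nat.cast_sub hc, abs_of_nonneg]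
        have : (c : ℤ) ≤ ((N + 1 : ℕ) : ℤ) := by exact_mod_cast hc
        linarith
      rw [a5]
      have := Nat.choose_mul_succ_eq N c
      have h3 : (N + 1).choose c * (N + 1 - c) = (N + 1) * N.choose c := by
        rw [← this]; ring
      exact_mod_cast h3
    · rw [Nat.choose_eq_zero_of_lt (by omega : N + 1 < c), Nat.choose_eq_zero_of_lt (by omega : N < c)]
      simp

theorem D_zero (p M : ℕ) : D p M 0 = 0 := by
  unfold D
  simp

theorem Ph_le (M k : ℕ) : Ph (2 * M) k ≤ (k + 1) / 2 := by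
  unfold Ph
  calc ((Finset.Icc 1 k).filter (fun j => Nat.Coprime j (2 * M))).card
      ≤ ((Finset.range ((k + 1) / 2)).image (fun i => 2 * i + 1)).card := by
        apply Finset.card_le_card
        intro j hj
        rw [Finset.mem_filter, Finset.mem_Icc] at hj
        obtain ⟨⟨h1, h2⟩, h3⟩ := hj
        have h4 : Nat.Coprime j 2 := Nat.Coprime.coprime_mul_right_right h3
        have h5 : j % 2 = 1 := by
          have : Nat.Coprime 2 j := h4.symm
          rw [Nat.coprime_two_left] at this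
          exact Nat.odd_iff.mp this
        rw [Finset.mem_image]
        exact ⟨j / 2, by rw [Finset.mem_range]; omega, by omega⟩
    _ ≤ (Finset.range ((k + 1) / 2)).card := Finset.card_image_le
    _ = (k + 1) / 2 := Finset.card_range _

theorem evn (spl : G_SPL) (dv : G_DV) (r1 : G_R1) (ei : G_EI) (ex : G_EX) : G_EVN := by
  intro M k g hM hk hkM hg hav
  by_cases hexc : (M, k) ∈ ({(4, 3), (6, 3), (6, 4), (6, 5), (8, 4), (12, 4)} : Finset (ℕ × ℕ))
  · exact ex M k g hexc hg hav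
  have hei := ei M k hM hk hkM hexc
  have hM0 : 0 < M := by omega
  have hg0 : 0 < g := Nat.pos_of_dvd_of_pos hg (by omega)
  have h1 := hav 2 (dvd_mul_right 2 M) (by norm_num)
  rw [spl 2 M k g Nat.prime_two hM0] at h1
  have hphi : 0 < Nat.totient (2 * M) := Nat.totient_pos.mpr (by omega)
  obtain ⟨-, hr2, hr2'⟩ := r1 2 g 2 Nat.prime_two hg0 (by norm_num) (dvd_refl 2)
  have habs2 : |rg g 2| = 1 := by
    rcases hr2' with h | h
    · rw [h]; norm_num
    · rw [h]; norm_num
  have hrb : ∀ s : ℕ, 0 < s → 2 ∣ s → |rg g s| ≤ (Nat.totient s : ℤ) := by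
    intro s hs h2s
    obtain ⟨h, -, -⟩ := r1 2 g s Nat.prime_two hg0 hs h2s
    rw [habs2] at h
    push_cast at h
    linarith
  -- bound of the full sum
  set S : ℤ := ∑ j ∈ M.divisors, rg g (2 * j) * D 2 (M / j) (k / j) with hS
  have hSb : |S| ≤ (Ph (2 * M) k : ℤ) := by
    have h2 := congrArg abs h1
    rw [abs_mul, Nat.abs_cast, Nat.totient_two, Nat.cast_one, one_mul, abs_mul, Nat.abs_cast] at h2
    have h3 := hrb (2 * M) (by omega) (dvd_mul_right 2 M)
    have h4 : (Nat.totient (2 * M) : ℤ) * |S| ≤ (Nat.totient (2 * M) : ℤ) * (Ph (2 * M) k : ℤ) := by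
      rw [h2]
      exact mul_le_mul_of_nonneg_right h3 (by positivity)
    exact le_of_mul_le_mul_left h4 (by exact_mod_cast hphi)
  -- isolate the term `j = 1`
  have h1mem : 1 ∈ M.divisors := Nat.one_mem_divisors.mpr (by omega)
  have hsplit : S = rg g (2 * 1) * D 2 (M / 1) (k / 1) +
      ∑ j ∈ M.divisors.erase 1, rg g (2 * j) * D 2 (M / j) (k / j) := by
    exact (Finset.add_sum_erase _ (fun j => rg g (2 * j) * D 2 (M / j) (k / j)) h1mem).symm
  rw [mul_one, Nat.div_one, Nat.div_one] at hsplit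
  have hrest : |∑ j ∈ M.divisors.erase 1, rg g (2 * j) * D 2 (M / j) (k / j)| ≤
      ((∑ j ∈ M.divisors.filter (fun j => 1 < j ∧ j < M ∧ j ≤ k),
        Nat.totient (2 * j) * (M / j - 2).choose ((k / j - 1) / 2) : ℕ) : ℤ) := by
    have hsub : M.divisors.filter (fun j => 1 < j ∧ j < M ∧ j ≤ k) ⊆ M.divisors.erase 1 := by
      intro j hj
      rw [Finset.mem_filter] at hj
      rw [Finset.mem_erase]
      exact ⟨by omega, hj.1⟩
    rw [← Finset.sum_subset hsub]
    · refine (Finset.abs_sum_le_sum_abs _ _).trans ?_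
      rw [Nat.cast_sum]
      apply Finset.sum_le_sum
      intro j hj
      rw [Finset.mem_filter, Nat.mem_divisors] at hj
      obtain ⟨⟨hjM, -⟩, hj1, hjlt, hjk⟩ := hj
      have hq : 2 ≤ M / j := by
        obtain ⟨c, hc⟩ := hjM
        rw [hc, Nat.mul_div_cancel_left c (by omega)]
        by_contra hcon
        have : c = 0 ∨ c = 1 := by omega
        rcases this with rfl | rfl <;> simp at hc <;> omega
      have hq' : 1 ≤ k / j := (Nat.one_le_div_iff (by omega)).mpr hjk
      rw [abs_mul, absD dv _ _ hq hq', Nat.cast_mul]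
      exact mul_le_mul_of_nonneg_right (hrb (2 * j) (by omega) (dvd_mul_right 2 j)) (by positivity)
    · intro j hj hj'
      rw [Finset.mem_erase, Nat.mem_divisors] at hj
      obtain ⟨hj1, hjM, -⟩ := hj
      rw [Finset.mem_filter, Nat.mem_divisors] at hj'
      have hjle : j ≤ M := Nat.le_of_dvd hM0 hjM
      have hjpos : 0 < j := Nat.pos_of_dvd_of_pos hjM hM0
      have hkj : k < j := by
        by_contra hcon
        apply hj'
        exact ⟨⟨hjM, by omega⟩, by omega, by omega, by omega⟩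
      rw [Nat.div_eq_of_lt hkj, D_zero, mul_zero]
  have hD1 := absD dv M k (by omega) (by omega)
  have hfin : ((M - 2).choose ((k - 1) / 2) : ℤ) ≤ (Ph (2 * M) k : ℤ) +
      ((∑ j ∈ M.divisors.filter (fun j => 1 < j ∧ j < M ∧ j ≤ k),
        Nat.totient (2 * j) * (M / j - 2).choose ((k / j - 1) / 2) : ℕ) : ℤ) := by
    have h5 : |rg g 2 * D 2 M k| = ((M - 2).choose ((k - 1) / 2) : ℤ) := by
      rw [abs_mul, habs2, one_mul, hD1]
    have h6 : rg g 2 * D 2 M k =
        S - ∑ j ∈ M.divisors.erase 1, rg g (2 * j) * D 2 (M / j) (k / j) := by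
      rw [hsplit]; ring
    rw [← h5, h6]
    exact (abs_sub _ _).trans (add_le_add hSb hrest)
  have hPh := Ph_le M k
  have hfin' : (M - 2).choose ((k - 1) / 2) ≤ Ph (2 * M) k +
      ∑ j ∈ M.divisors.filter (fun j => 1 < j ∧ j < M ∧ j ≤ k),
        Nat.totient (2 * j) * (M / j - 2).choose ((k / j - 1) / 2) := by
    exact_mod_cast hfin
  omega

end Pool.Agent.Helper82.SD
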